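import Pool.Agent.Lib.MP_144d21_co.XU3.Iface
import Pool.Agent.Lib.MP_144d21_co.XU.H72.Rankt

/-!
# MP_144d21_co, project XU3: RKD3 (helper52)
-/

set_option autoImplicit false

namespace Pool.Agent.Xu.X52

open Finset Polynomial Pool.Agent.Xu.H72

theorem rkd3 : Rkd3S := by
  intro V _ _ G S c hc
  classical
  obtain ⟨hlt, h0, hprop⟩ := mem_cols.1 hc
  set p := plc c with hp
  let L1 : (S → Fin 3 → ℝ) →ₗ[ℝ] Module.Dual ℝ (rs p G S) :=
    (Submodule.dualRestrict (rs p G S)).comp (pairing.comp (ext0 S))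
  let P : (S → Fin 3 → ℝ) →ₗ[ℝ] (V → Fin 4 → ℝ) :=
    LinearMap.pi fun v => LinearMap.pi fun b =>
      if h : v ∈ S then (phi (c v) b.val).comp (LinearMap.proj (⟨v, h⟩ : S)) else 0
  have hP : ∀ (u : S → Fin 3 → ℝ) (v : V) (hv : v ∈ S) (b : Fin 4),
      P u v b = phi (c v) b.val (u ⟨v, hv⟩) := by
    intro u v hv b
    simp only [P, LinearMap.pi_apply, dif_pos hv]
    rfl
  have hP0 : ∀ (u : S → Fin 3 → ℝ) (v : V) (b : Fin 4), v ∉ S → P u v b = 0 := by
    intro u v b hv
    simp only [P, LinearMap.pi_apply, dif_neg hv, LinearMap.zero_apply]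
  have hmem : ∀ u : S → Fin 3 → ℝ, L1 u = 0 → P u ∈ M3 ℝ G S c := by
    intro u hu
    refine ⟨fun v hv b => hP0 u v b hv, fun v b hb => ?_, fun x hx y hy hxy a b ha hb => ?_⟩
    · by_cases hv : v ∈ S
      · rw [hP u v hv, hb, phi_apply]
        simp
      · exact hP0 u v b hv
    · have hmem : row p x y ∈ rs p G S := Submodule.subset_span ⟨x, hx, y, hy, hxy, rfl⟩
      have h1 : L1 u ⟨row p x y, hmem⟩ = 0 := by rw [hu]; rfl
      have h2 : L1 u ⟨row p x y, hmem⟩ = pairing (ext0 S u) (row p x y) := rfl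
      rw [h2, pairing_row, ext0_apply u hx, ext0_apply u hy] at h1
      have h3 : ∑ k, (p x k - p y k) * (u ⟨x, hx⟩ k - u ⟨y, hy⟩ k) =
          phi (c x) (c y) (u ⟨x, hx⟩) - phi (c x) (c y) (u ⟨y, hy⟩) := by
        rw [phi_apply, phi_apply, ← Finset.sum_sub_distrib]
        refine Finset.sum_congr rfl fun k _ => ?_
        have e1 : p x k = ev (c x) k := rfl
        have e2 : p y k = ev (c y) k := rfl
        rw [e1, e2]
        ring
      rw [h3] at h1
      rw [hP u x hx, hP u y hy, ← ha, ← hb, phi_symm (c x) (c y)]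
      linarith
  let Q : LinearMap.ker L1 →ₗ[ℝ] M3 ℝ G S c :=
    { toFun := fun u => ⟨P u.1, hmem u.1 (LinearMap.mem_ker.1 u.2)⟩
      map_add' := fun u u' => by
        apply Subtype.ext
        exact map_add P u.1 u'.1
      map_smul' := fun r u => by
        apply Subtype.ext
        exact map_smul P r u.1 }
  have hQ : Function.Injective Q := by
    rw [← LinearMap.ker_eq_bot, LinearMap.ker_eq_bot']
    rintro ⟨u, hu⟩ h
    apply Subtype.ext
    have hPu : P u = 0 := congrArg Subtype.val h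
    show u = 0
    funext v
    refine eq_zero_of_phi (c v.1) (hlt v.1 v.2) _ fun s hs hvs => ?_
    have hz : ∀ b : Fin 4, phi (c v.1) b.val (u v) = 0 := by
      intro b
      rw [← hP u v.1 v.2 b, hPu]
      rfl
    have hs' : s.1 < 4 ∧ s.2 < 4 := by
      simp only [prs, mem_insert, mem_singleton] at hs
      rcases hs with rfl | rfl | rfl | rfl | rfl | rfl <;> simp
    rcases hvs with h1 | h1
    · have := hz ⟨s.2, hs'.2⟩
      rwa [h1] at this
    · have := hz ⟨s.1, hs'.1⟩
      rw [h1] at this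
      rw [phi_symm s.2 s.1, neg_eq_zero]
      exact this
  have h1 : Module.finrank ℝ (S → Fin 3 → ℝ) = 3 * S.card := by
    rw [Module.finrank_pi_fintype]
    simp [mul_comm]
  have h2 := LinearMap.finrank_range_add_finrank_ker L1
  have h3 : Module.finrank ℝ (LinearMap.range L1) ≤ rk p G S := by
    refine (Submodule.finrank_le _).trans ?_
    rw [Subspace.dual_finrank_eq]
    rfl
  have h4 : Module.finrank ℝ (LinearMap.ker L1) ≤ D3 G S c :=
    LinearMap.finrank_le_finrank_of_injective hQ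
  omega

end Pool.Agent.Xu.X52
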